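import Pool.Agent.R658.UESolv

set_option autoImplicit false

/-!
For every `d ≥ 3` there is a finite solvable group of derived length `d` and a unimodular equation
over it which has no solution in any solvable overgroup of derived length `d`.
-/

namespace Pool.Agent.Results.MP_82f72d_al.EveryDerivedLength

open Pool.Agent.R658.UE

universe u

/-- For every `d ≥ 3` there are a finite group `G` with `G^(d) = 1` and `G^(d-1) ≠ 1` (a solvable
group of derived length exactly `d`) and an element `w` of the free product `G * ⟨x⟩` with exponent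
sum `1` in `x` (a unimodular equation) such that, for every injective homomorphism `φ` of `G` into
a group `H` with `H^(d) = 1` (that is, solvable of derived length at most `d`), no element `h` of
`H` satisfies `w(h) = 1`. -/
theorem result (d : ℕ) (hd : 3 ≤ d) :
    ∃ (G : Type) (_ : Group G), Finite G ∧
      derivedSeries G d = ⊥ ∧ derivedSeries G (d - 1) ≠ ⊥ ∧
      ∃ w : Monoid.Coprod G (FreeGroup Unit),
        Monoid.Coprod.lift (1 : G →* Multiplicative ℤ)
          (FreeGroup.lift (fun _ => Multiplicative.ofAdd (1 : ℤ))) w =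
            Multiplicative.ofAdd (1 : ℤ) ∧
        ∀ (H : Type u) [Group H] (φ : G →* H), Function.Injective φ → derivedSeries H d = ⊥ →
          ∀ h : H, Monoid.Coprod.lift φ (FreeGroup.lift (fun _ => h)) w ≠ 1 := by
  obtain ⟨n, rfl⟩ : ∃ n, d = n + 2 := ⟨d - 2, by omega⟩
  obtain ⟨G, _, hfin, hG, s, hs, c, hs6, hc7, hsc, hc⟩ := exists_G n
  refine ⟨G, inferInstance, hfin, hG, ?_, ?_⟩
  · intro h
    have h1 := c_deep hs hc7 hsc (n + 1) le_rfl
    have h2 : n + 2 - 1 = n + 1 := by omega
    rw [h2] at h
    rw [h, Subgroup.mem_bot] at h1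
    exact hc h1
  · let X : Monoid.Coprod G (FreeGroup Unit) := Monoid.Coprod.inr (FreeGroup.of ())
    let S : Monoid.Coprod G (FreeGroup Unit) := Monoid.Coprod.inl s
    let C : Monoid.Coprod G (FreeGroup Unit) := Monoid.Coprod.inl c
    refine ⟨X * (S * X⁻¹ * S⁻¹) * (S ^ 2 * X * (S ^ 2)⁻¹) * C⁻¹, ?_, ?_⟩
    · simp only [X, S, C, map_mul, map_inv, map_pow, Monoid.Coprod.lift_apply_inl,
        Monoid.Coprod.lift_apply_inr, FreeGroup.lift_apply_of, MonoidHom.one_apply]
      simp
    · intro H _ φ hφ hH h hw
      simp only [X, S, C, map_mul, map_inv, map_pow, Monoid.Coprod.lift_apply_inl,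
        Monoid.Coprod.lift_apply_inr, FreeGroup.lift_apply_of] at hw
      have hw' := mul_inv_eq_one.mp hw
      have h1 : φ s ∈ derivedSeries H n :=
        map_derivedSeries_le_derivedSeries φ n (Subgroup.mem_map_of_mem _ hs)
      have h2 := core hH (s := φ s) (c := φ c) (x := h) h1 (by rw [← map_pow, hs6, map_one])
        (by rw [← map_pow, hc7, map_one])
        (by rw [← map_mul, ← map_inv, ← map_mul, hsc, map_pow]) hw'
      exact hc (hφ (by rw [h2, map_one]))

end Pool.Agent.Results.MP_82f72d_al.EveryDerivedLength
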